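import Pool.Agent.Hhelper50.Reduce
import Pool.Agent.Hhelper50.Congr
import Pool.Agent.Hhelper50.Geo5
import Pool.Agent.Hhelper50.ExtSum
import Pool.Agent.Hhelper50.GeoHd

set_option autoImplicit false

/-!
# Monohedral tilings by convex tiles: at most 21 neighbours per tile

Own statement of Q1 of MP_b6c147_co, with the tilings of the problem file: countable families of
closed topological disks.
-/

namespace Pool.Agent.Results.MP_b6c147_co.AtMostTwentyOne

open Set

/-- The Euclidean plane. -/
abbrev Plane := EuclideanSpace ℝ (Fin 2)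

/-- `A` is a closed topological disk: a subset of the plane homeomorphic to the closed unit disk. -/
def IsDisk (A : Set Plane) : Prop := Nonempty (Metric.closedBall (0 : Plane) 1 ≃ₜ A)

/-- A tiling of the plane: a countable family of closed topological disks whose union is the plane
and whose interiors are pairwise disjoint. -/
structure IsTiling (T : Set (Set Plane)) : Prop where
  countable : T.Countable
  disk : ∀ A ∈ T, IsDisk A
  cover : ∀ x : Plane, ∃ A ∈ T, x ∈ A
  disjoint : ∀ A ∈ T, ∀ B ∈ T, A ≠ B → Disjoint (interior A) (interior B)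

/-- `A` and `B` are congruent: some isometry of the plane onto itself (possibly a reflection) maps
`A` onto `B`. -/
def Congruent (A B : Set Plane) : Prop := ∃ f : Plane ≃ᵢ Plane, f '' A = B

/-- The tiling is monohedral: every tile is congruent to one fixed set, the prototile. -/
def Monohedral (T : Set (Set Plane)) : Prop := ∃ P : Set Plane, ∀ A ∈ T, Congruent P A

/-- The neighbours of the tile `A`: the other tiles which meet `A`. -/
def neighbors (T : Set (Set Plane)) (A : Set Plane) : Set (Set Plane) :=
  {B | B ∈ T ∧ B ≠ A ∧ (A ∩ B).Nonempty}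

/-- In a monohedral tiling of the plane by convex tiles in which every tile has exactly `n`
neighbours we have `n ≤ 21`. -/
theorem result (T : Set (Set Plane)) (hT : IsTiling T) (hM : Monohedral T)
    (hC : ∀ A ∈ T, Convex ℝ A) (n : ℕ) (hn : ∀ A ∈ T, (neighbors T A).encard = n) : n ≤ 21 := by
  obtain ⟨P, hP⟩ := hM
  have hcov : ⋃₀ T = Set.univ := by
    ext x
    simp only [mem_sUnion, mem_univ, iff_true]
    exact hT.cover x
  have hcomp : ∀ A ∈ T, IsCompact A := by
    intro A hA
    obtain ⟨h⟩ := hT.disk A hA
    have h1 : CompactSpace (Metric.closedBall (0 : Plane) 1) :=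
      isCompact_iff_compactSpace.1 (isCompact_closedBall _ _)
    have h2 : CompactSpace A := h.compactSpace
    exact isCompact_iff_compactSpace.2 h2
  obtain ⟨A0, hA0, hint⟩ : ∃ A ∈ T, (interior A).Nonempty := by
    have hc : Countable T := hT.countable.to_subtype
    have h1 : (⋃ A : T, (A : Set Plane)) = Set.univ := by
      rw [← sUnion_eq_iUnion, hcov]
    obtain ⟨A, hA⟩ := nonempty_interior_of_iUnion_of_closed
      (fun A : T => (hcomp A.1 A.2).isClosed) h1
    exact ⟨A.1, A.2, hA⟩
  have hred := Pool.Agent.Hhelper50.reduce (fun X =>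
    X.main_of (fun A hA s hs => X.ext_sum hA s hs)
    (fun f p hp hint => X.ang_congr X.hK f hp hint)
    (fun A B C a b c hA hB hC hcorner nA nB nC angA angB angC dAB dAC dBC =>
      X.hd_core A B C a b c hA hB hC hcorner nA nB nC angA angB angC dAB dAC dBC))
  refine hred T A0 n (hC A0 hA0) (hcomp A0 hA0) hint ?_ hcov hT.disjoint ?_
  · intro A hA
    obtain ⟨f, hf⟩ := hP A hA
    obtain ⟨g, hg⟩ := hP A0 hA0
    refine ⟨g.symm.trans f, ?_⟩
    rw [← hg, ← hf]
    ext y
    constructor
    · rintro ⟨x, hx, rfl⟩
      refine ⟨g x, ⟨x, hx, rfl⟩, ?_⟩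
      change f (g.symm (g x)) = f x
      rw [g.symm_apply_apply]
    · rintro ⟨_, ⟨x, hx, rfl⟩, rfl⟩
      refine ⟨x, hx, ?_⟩
      change f x = f (g.symm (g x))
      rw [g.symm_apply_apply]
  · intro A hA
    have h1 := hn A hA
    have h2 : (neighbors T A).ncard = n := by
      rw [Set.ncard, h1, ENat.toNat_coe]
    exact h2

end Pool.Agent.Results.MP_b6c147_co.AtMostTwentyOne
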